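import Pool.Agent.helper17.SG.SpecR

/-!
# R06: first crossing (project sg:)
-/

set_option autoImplicit false

open MeasureTheory Set Metric Filter Topology
open scoped ENNReal NNReal ComplexConjugate

namespace Pool.Agent.SG

theorem R06_far {u p : ℂ} {r : ℝ} (hu : ‖u‖ = 1) (hr : 0 < r) (hr4 : r ≤ 1 / 4)
    (h : 2 * r ≤ ‖u - p‖ / ‖u + p‖) : 2 * r ≤ ‖u - p‖ := by
  by_cases h1 : 1 ≤ ‖u - p‖
  · linarith
  push Not at h1
  have h2 : 1 < ‖u + p‖ := by
    have h3 : ‖(2 : ℂ) * u‖ ≤ ‖u - p‖ + ‖u + p‖ := by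
      have : (2 : ℂ) * u = (u - p) + (u + p) := by ring
      rw [this]
      exact norm_add_le _ _
    have h4 : ‖(2 : ℂ) * u‖ = 2 := by
      rw [norm_mul, hu]
      simp
    linarith
  rw [le_div_iff₀ (by linarith)] at h
  nlinarith

theorem R06 (r05 : R05_stmt) (p05 : P05_stmt) (p08 : P08_stmt) (m01 : M01_stmt) (m03 : M03_stmt)
    (m04 : M04_stmt) (b04 : B04_stmt) (b14 : B14_stmt) (b18 : B18_stmt) :
    R06_stmt := by
  intro Γ _ A W ν hS
  obtain ⟨M₀, hM₀, hM⟩ := r05 Γ A W hS.disc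
  refine ⟨M₀, hM₀, ?_⟩
  intro M hMM u r hu hr hr4
  obtain ⟨C, hC, hlay⟩ := hM M hMM
  obtain ⟨ha, -, -, -⟩ := hlay u (2 * r) hu (by linarith) (by linarith)
  have hstat : Stat A W ν := hS.toStat
  obtain ⟨hprob, hcirc, hone, hmul, hpre, hharm⟩ := m01 Γ A W ν hstat
  have : IsProbabilityMeasure ν := hS.prob
  have : Infinite Γ := (b14 Γ A).1 hS.nonel
  have hcm : MeasurableSet circ := isClosed_sphere.measurableSet
  set I : Set ℂ := circ ∩ closedBall u r with hI
  have hIm : MeasurableSet I := hcm.inter measurableSet_closedBall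
  set D : Set Γ := {γ | 2 * r ≤ A.Hu u γ} with hD
  have hbound : ∀ x, nux A ν x I ≤ 1 := by
    intro x
    have := hprob x
    exact prob_le_one
  have hfin : ∀ ε : ℝ≥0∞, ε ≠ 0 → {x | x ∈ D ∧ ε < nux A ν x I}.Finite := by
    intro ε hε
    obtain ⟨ρ, hρ, hρ2⟩ := m04 ν hS.supp (m03 Γ A W ν hstat hS.nonel) ε hε
    refine ((b14 Γ A).2.2 hS.disc (ρ * r) (by positivity)).subset ?_
    rintro γ ⟨hγD, hγ⟩
    simp only [mem_setOf_eq]
    by_contra hlt
    push Not at hlt
    have hfar : 2 * r ≤ ‖u - A.pt γ‖ := R06_far hu hr hr4 hγD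
    have hsub : A.act γ ⁻¹' I ⊆ closedBall (A.pt γ⁻¹) ρ ∪ circᶜ := by
      intro η hη
      by_cases hηc : η ∈ circ
      · left
        have hη1 : ‖η‖ = 1 := by simpa [circ] using hηc
        have h4 := (b04 Γ A γ).1 η hη1
        have hξ : ‖A.act γ η - u‖ ≤ r := by
          have := hη.2
          simpa [mem_closedBall, dist_eq_norm] using this
        have h5 : r ≤ ‖A.act γ η - A.pt γ‖ := by
          have : ‖u - A.pt γ‖ ≤ ‖A.act γ η - A.pt γ‖ + ‖A.act γ η - u‖ := by
            have e : u - A.pt γ = (A.act γ η - A.pt γ) - (A.act γ η - u) := by ring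
            rw [e]
            exact norm_sub_le _ _
          linarith
        rw [mem_closedBall, dist_eq_norm]
        have h6 : r * ‖η - A.pt γ⁻¹‖ < r * ρ := by
          calc r * ‖η - A.pt γ⁻¹‖ ≤ ‖A.act γ η - A.pt γ‖ * ‖η - A.pt γ⁻¹‖ :=
                mul_le_mul_of_nonneg_right h5 (norm_nonneg _)
            _ = A.kk γ := h4
            _ < ρ * r := hlt
            _ = r * ρ := mul_comm _ _
        exact (lt_of_mul_lt_mul_left h6 hr.le).le
      · right
        exact hηc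
    have : nux A ν γ I ≤ ε := by
      rw [hpre γ I hIm]
      calc ν (A.act γ ⁻¹' I) ≤ ν (closedBall (A.pt γ⁻¹) ρ ∪ circᶜ) := measure_mono hsub
        _ ≤ ν (closedBall (A.pt γ⁻¹) ρ) + ν circᶜ := measure_union_le _ _
        _ = ν (closedBall (A.pt γ⁻¹) ρ) := by rw [hS.supp, add_zero]
        _ ≤ ε := hρ2 _
    exact absurd hγ (not_lt.mpr this)
  have h1 := p08 Γ W D (fun x => nux A ν x I) (hharm I hIm) ⟨1, ENNReal.one_ne_top, hbound⟩ hfin 1
  simp only [hone] at h1
  have h2 : ν (closedBall u r) ≤ ν I := by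
    calc ν (closedBall u r) ≤ ν (I ∪ circᶜ) := by
          refine measure_mono ?_
          intro z hz
          by_cases hzc : z ∈ circ
          · exact Or.inl ⟨hzc, hz⟩
          · exact Or.inr hzc
      _ ≤ ν I + ν circᶜ := measure_union_le _ _
      _ = ν I := by rw [hS.supp, add_zero]
  refine h2.trans ?_
  rw [h1]
  refine ENNReal.tsum_le_tsum fun w => ?_
  by_cases hw : w ∈ lay A u M (2 * r)
  · rw [indicator_of_mem hw]
    calc W.exi D 1 w * nux A ν w I ≤ W.hit 1 w * 1 :=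
          mul_le_mul' ((p05 Γ W D).2.1 1 w) (hbound w)
      _ = W.hit 1 w := mul_one _
  · rw [indicator_of_notMem hw]
    have : W.exi D 1 w = 0 := by
      by_contra hne
      refine hw (ha 1 w ?_ hne)
      rw [(b18 Γ A u hu).2.2.2]
      linarith
    rw [this, zero_mul]

end Pool.Agent.SG
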