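import Pool.Agent.helper3.SG.SpecS

/-!
# S27: properness of the drift (project sg:)
-/

set_option autoImplicit false

open MeasureTheory Set Metric Filter Topology
open scoped ENNReal NNReal ComplexConjugate commutatorElement

namespace Pool.Agent.SG

theorem S27_dev_nonneg {Γ : Type} [Group Γ] (A : DiscRep Γ) (γ : Γ) : 0 ≤ A.dev γ := by
  unfold DiscRep.dev
  positivity

theorem S27_small (U : Ultrafilter ℕ) (L : ℕ → ℝ) (D : ℕ → ℝ) (hD : Tendsto D U atTop)
    (h : Tendsto (fun k => L k / D k) U (𝓝 0)) : ∀ᶠ k in (U : Filter ℕ), L k ≤ D k / 8 := by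
  have h1 : ∀ᶠ k in (U : Filter ℕ), L k / D k < 1 / 8 := h.eventually_lt_const (by norm_num)
  have h2 : ∀ᶠ k in (U : Filter ℕ), 0 < D k := hD.eventually_gt_atTop 0
  filter_upwards [h1, h2] with k hk hk2
  rw [div_lt_iff₀ hk2] at hk
  linarith

theorem S27 (h06 : S06_stmt) (h08 : S08_stmt) (h10 : S10_stmt) (h13 : S13_stmt) (h23 : S23_stmt)
    (h24 : S24_stmt) (h25 : S25_stmt) (h26 : S26_stmt) : S27_stmt := by
  intro Γ _ hTF hNA W U Ak νk D hdisc hstat hnrm hD hmax hlim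
  -- the generator
  obtain ⟨s, hsS, hs⟩ : ∃ s ∈ (W.S : Set Γ), ∀ᶠ k in (U : Filter ℕ), (Ak k).L s = D k := by
    rw [← Ultrafilter.eventually_exists_mem_iff W.S.finite_toSet]
    exact Eventually.of_forall fun k => (hmax k).2
  obtain ⟨Linf, hconv, h1, h2, h3, h4, h5, h6, h7⟩ := h24 Γ W U Ak νk D s hstat hnrm hD
    (fun k => (hmax k).1) hsS hs hlim
  have hzero := h23 Γ Linf h1 h2 h3 h4 h5 h6 ⟨s, by rw [h7]; norm_num⟩
  -- the conjugated representations
  choose p q hpq hdev using fun k => h25 Γ (Ak k) s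
  choose A' hconj hact hdisc' hcoc' hstat' using fun k => h13 (p k) (q k) (hpq k) Γ (Ak k)
  have hcomm : ∀ u ∈ derivedSeries Γ 2, ∀ v ∈ derivedSeries Γ 2,
      Tendsto (fun k => (A' k).dev ⁅u, v⁆) U (𝓝 0) := by
    intro u hu v hv
    have key : ∀ w ∈ derivedSeries Γ 2, ∀ g : Γ,
        ∀ᶠ k in (U : Filter ℕ), (Ak k).L (g⁻¹ * w * g) ≤ D k / 8 := by
      intro w hw g
      refine S27_small U (fun k => (Ak k).L (g⁻¹ * w * g)) D hD ?_
      have := hconv (g⁻¹ * w * g)
      rwa [hzero w hw g] at this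
    have e1 := key u hu 1
    have e2 := key u hu s
    have e3 := key v hv 1
    have e4 := key v hv s
    simp only [inv_one, one_mul, mul_one] at e1 e3
    have hle : ∀ᶠ k in (U : Filter ℕ), (A' k).dev ⁅u, v⁆ ≤ 3000 * Real.exp (-(D k / 4)) := by
      filter_upwards [e1, e2, e3, e4, hs] with k k1 k2 k3 k4 k5
      have := hdev k (A' k) (hconj k) u v (D k / 8) k1 k2 k3 k4
      rw [k5] at this
      have e : 2 * (D k / 8) - D k / 2 = -(D k / 4) := by ring
      rwa [e] at this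
    have hexp : Tendsto (fun k => 3000 * Real.exp (-(D k / 4))) U (𝓝 0) := by
      have : Tendsto (fun k => Real.exp (-(D k / 4))) U (𝓝 0) :=
        Real.tendsto_exp_neg_atTop_nhds_zero.comp (hD.atTop_div_const (by norm_num))
      simpa using this.const_mul 3000
    exact tendsto_of_tendsto_of_tendsto_of_le_of_le' tendsto_const_nhds hexp
      (Eventually.of_forall fun k => S27_dev_nonneg _ _) hle
  have hthree := h26 Γ U A' 2 hcomm
  have hCSA : CSA Γ := h06 Γ hTF (Ak 0) (hdisc 0)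
  obtain ⟨x, hx, y, hy, hxy⟩ := h08 Γ hCSA hNA 3
  have ex : ∀ᶠ k in (U : Filter ℕ), (A' k).dev x ≤ 1 / 8 :=
    (hthree x hx).eventually_le_const (by norm_num)
  have ey : ∀ᶠ k in (U : Filter ℕ), (A' k).dev y ≤ 1 / 8 :=
    (hthree y hy).eventually_le_const (by norm_num)
  obtain ⟨k, hk1, hk2⟩ := (ex.and ey).exists
  exact hxy (h10 Γ hTF (A' k) (hdisc' k (hdisc k)) x y hk1 hk2)

end Pool.Agent.SG
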